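import Pool.Agent.W2helper28.LF.Point
import Pool.Agent.W2helper90.LF.LF1
import Pool.Agent.W2helper60.LF.LF2
import Pool.Agent.W2helper65.LF.Three
import Pool.Agent.W2helper88.LF.LF4
import Pool.Agent.W2helper51.LF.LF5
import Pool.Agent.W2helper92.LF.Lf6
import Pool.Agent.W2helper3.LF.Lf7
import Pool.Agent.W2helper10.LF.LF8
import Pool.Agent.W2helper90.LF.LF9
import Pool.Agent.W2helper56.LF.LF10

set_option autoImplicit false

/-! # The global motivic zeta function of polynomials of degree at most one in all but two variables

`f none` and `f (some k)`, `k ∈ κ` (a finite set, of any size), are arbitrary polynomials in the two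
variables `x₁, x₂`, the `y_k` are further variables, and
`F = affForm f = f none + ∑_k y_k f (some k)` (in `Pool.Agent.W2helper28.LF.Defs`). So `F` is an
arbitrary polynomial which has degree at most one in the variables `y_k`; for example an arbitrary
polynomial `z g(x, y) + h(x, y)` in three variables. The motivic zeta function of `F` is
computed by blowing up points of the plane: if `Y → ℂ²` is a log resolution of the ideal generated by
`f none` and the `f (some k)` which is a composition of blow-ups of points, then
`Y × ℂ^κ → ℂ² × ℂ^κ` is an embedded resolution of `F = 0`; see `LinLocal`, `LinMot`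
(in `Pool.Agent.W2helper28.LF.Zeta`).

Relation to the starting results: `MP_9321be_ag/DegreeOneOffPlane` is the local motivic statement, at
the origin, for these polynomials, and `MP_b22d1f_ag/DegreeOneOffPlane`,
`MP_25f8ad_ag/AffineOverPlane` are the global topological and `p`-adic ones. The global motivic zeta
function is not determined by the local ones at the closed points: over a set of parameters `y`
on which the local zeta function is constant, the strata of the resolution are in general
nontrivial finite coverings, whose classes are not multiples of the class of the base. The proof here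
is independent of `Pool.Agent.N103`, and treats all `y ∈ ℂ^κ` at the same time.

The proof. Let `b(s₀) ≠ 0`, let `E` be an exceptional curve with `ν + s₀ N = 0`.

* `engineW`, `res_core`, `star_thm`: the residue of `F ^ s₀ dx dy` along `E × ℂ^κ` (a twisted form in
  the coordinate of `E` and the parameters `y`) is exact relative to the parameters, over the ring of
  regular functions on the open stratum, with `y` as parameters. No reduction to an ideal is
  possible, because `F` is not homogeneous in the `y_k`.
* `lf1`, `lf9`: for general `y`, at most two points of `E` are special, and hence, if the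
  leading forms `P_j` of the `f_j` along `E` are not proportional, `P_j = (v - c)^(m - 1) ℓ_j` with a common
  point `c` and `deg ℓ_j ≤ 1`.
* `lf2`, `lf3`, `lf4`: the exactness at the special parameters `y` restricts the values `ℓ_j(c)`.
* `lf5`, `lf8`, `lf10`: the contribution of `E × ℂ^κ` to the polar part at `s₀` vanishes.
* `lf6`, `lf7`: `b(-1/m) = 0` for the multiplicities of curves.
* `local_mainF`, `descent`: induction over the blow-ups; removal of all the other denominators. -/

namespace Pool.Agent.Results.MP_b07157_ag.AffineLinearOverPlane

open MvPolynomial Pool.Agent.W574.MO Pool.Agent.H628R4.TP Pool.Agent.W2helper28.LF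

/-- **The strong monodromy conjecture, Q1 (global), holds for all polynomials
`F = f none + ∑ y_k f (some k)` with `f none, f (some k) ∈ ℂ[x₁, x₂]`.** Let `F` be not constant. If `b`
satisfies a functional equation `b(s) F ^ s = P(s) F ^ (s + 1)` (in particular if it is the
Bernstein-Sato polynomial of `F`) and `Z ∈ M⟦T⟧` is the global motivic zeta function of `F`, then `Z`
lies in the ring `M[T][(1 - L⁻ⁿ Tᵃ)⁻¹]`, where the pairs `a, n ≥ 1` are such that `-n/a` is a root
of `b`. -/
theorem result {M : Type} [CommRing M] (L : Mˣ) {κ : Type} [Fintype κ]
    (f : Option κ → MvPolynomial (Fin 2) ℂ) (hF0 : affForm f ≠ 0) (hF : ¬ IsUnit (affForm f))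
    (b : Polynomial ℂ) (hb : IsBFunction (affForm f) b) (Z : PowerSeries M) (hZ : LinMot L f Z) :
    Z ∈ DenRing L (RootPair b) := by
  classical
  have h1 : S_LF1 := Pool.Agent.W2helper90.LF.lf1
  have h2 : S_LF2 := Pool.Agent.W2helper60.LF.lf2
  have h3 : S_LF3 := Pool.Agent.W2helper65.LF.lf3
  have h4 : S_LF4 := Pool.Agent.W2helper88.LF.lf4 h2 h3
  have h5 : S_LF5 := Pool.Agent.W2helper51.LF.lf5
  have h6 : S_LF6 := Pool.Agent.W2helper92.LF.lf6
  have h7 : S_LF7 := Pool.Agent.W2helper3.LF.lf7 h6
  have h8 : S_LF8 := Pool.Agent.W2helper10.LF.lf8
  have h9 : S_LF9 := Pool.Agent.W2helper90.LF.lf9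
  have h10 : S_LF10 := Pool.Agent.W2helper56.LF.lf10 h1 h4 h5 h8 h9
  exact global_F L h10 h7 h6 f b hb hF0 hF Z hZ

end Pool.Agent.Results.MP_b07157_ag.AffineLinearOverPlane
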