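import Pool.Agent.W2helper93.LF.Top

set_option autoImplicit false

/-! # The strong motivic monodromy conjecture for forms over arrangements of subvarieties

Let `P_r ⊆ ℂ[x_i]`, `r ∈ R`, be ideals with the generators `f r j`, and let `Z_r` be the subscheme of
the affine space with the ideal `P_r`. For `t ∈ T` let `I_t = ∏ r, P_r ^ e t r`, with the generators
`powFam f (e t)` (the products of `e t r` members of the family `f r`, `r ∈ R`), where every `P_r` occurs
in some `I_t`. Let `F_t = ∑_J y_{t,J} M_{t,J}(x)`, where the `M_{t,J}` are these generators and the
`y_{t,J}` are further variables, separate for each `t` (`blockForm`), and let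
`f = ∏ t, F_t ^ a t` (`powProd`) with `a t > 0`.

Let `Y` be a log resolution of the product of the `I_t`, with the components `E_i`, `i ∈ I`, let `k i` be
the multiplicity of `E_i` in the relative canonical divisor and `m i t` the order of `I_t` along `E_i`.
Then `Y` times the space of the `y` is an embedded resolution of `f`, with the components `E_i`, of
multiplicity `N_i = ∑ t, a t * m i t` (and `ν_i = k i + 1`), and the strict transforms of the `F_t = 0`,
of multiplicity `a t` (and `ν = 1`): `mulR`, `nuR` (as in ReesProducts). So the motivic zeta functions
`Z_f^mot` and `Z_{f,0}^mot` of the problem, computed on this resolution, are of the form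
`dlZ = ∑_J c_J ∏_{i ∈ J} u ^ (-ν_i) T ^ (N_i) / (1 - u ^ (-ν_i) T ^ (N_i))`, with `u = 𝕃`,
`R = 𝓜 = K₀(Var_ℂ)[𝕃⁻¹]` and `c_J = 𝕃 ^ (-n) (𝕃 - 1) ^ |J| [E_J°]`, respectively with
`[E_J° ∩ h⁻¹(0)]` in the place of `[E_J°]`.

The theorem is about the case in which near its general point each `E_i` which occurs in a stratum
with `c_J ≠ 0` is the exceptional divisor of the blow-up of a smooth subvariety `G_i` of the affine
space, or of a weighted blow-up. Let `p` be a general point of `G_i`, let the `h s` be local coordinates
at `p` in which `G_i` is given by `h s = 0`, `ω s > 0`; the `ω s` are the weights (1 for the blow-up). The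
conditions are on the leading forms of the `f r j` at `p`, of the degree `o r` for the `f r j` with
fixed `r` (`HasLead`): at some point `v` they do not all vanish, for any `r`, and the map which they
give to the product of projective spaces is unramified at `v` (`UnramAt`; for some `v` this is so if
and only if this map is generically finite onto its image). More generally it is enough that
`ν_i / N_i` is `(ν + l) / N` for such a divisor, with the numbers `ν` and `N` and the order `l < N` of a
monomial in the `h s` (`FromDivisor`).

The main case are arrangements of smooth subvarieties `Z_r` with clean intersections. Let `𝒢` be a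
building set (Li Li, the generalization of the building sets of De Concini and Procesi from
subspaces to smooth subvarieties) which contains the connected components of the `Z_r`. The
wonderful model `Y`, which is obtained by blowing up the strict transforms of the members of `𝒢`, in
the order of the dimension, is smooth, the components `E_G`, `G ∈ 𝒢`, cross normally, the multiplicity
of the Jacobian determinant along `E_G` is `codim G - 1`, and the ideal of `Z_r` becomes the ideal of
`∑ E_G`, over the `G ⊆ Z_r`. So `ν = codim G` and `N = ∑ t, a t * e t r`, over the `r` with
`G ⊆ Z_r`. Here the condition on `E_G` (the second case of `IsDivisor`) is that `T_p G` is the tangent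
space of one of the `Z_r` at a general point `p` of `G`, which is so for all the members of `𝒢` if
every one of them is a component of some `Z_r`; or, more generally, that `T_p G` is a Rees flat
(`IsReesFlat`) of the tangent spaces `T_p Z_r`. For linear `Z_r` this is the theorem of
SubspaceProducts. In the first case of `IsDivisor` the `Z_r` may be singular along the `G_i`, with
leading forms of arbitrary degrees.

The proof: the leading forms give a chart of `Y` at a point of `E_i` over `p` (`lead_chart`,
`hasLead_pow`, `unramAt_pow`), and `E_i` is a Rees divisor of the product of the ideals; such a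
divisor gives roots of the Bernstein-Sato polynomials (`rees_mot`, the theorem of
ReesProducts). -/

namespace Pool.Agent.Results.MP_b07157_ag.SmoothCentres

open Pool.Agent.W574.HS Pool.Agent.H628R4.TP Pool.Agent.TH192.DT Pool.Agent.TH187.SA
  Pool.Agent.Y231.RF Pool.Agent.R852.BM Pool.Agent.W2helper93.LF

/-- **The strong monodromy conjecture for the motivic zeta functions, global (Q1) and local at the
origin (Q2), of products of powers of forms over products of ideals with a resolution by blow-ups of
smooth centres with unramified leading forms, in particular for clean arrangements of smooth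
subvarieties.** Let `Z` be a series of the form of the formula of Denef and Loeser for
`f = ∏ t, F_t ^ a t` on the resolution described above, with arbitrary coefficients `χ J` in a
commutative ring `S` with a unit `u` (`S = 𝓜`, `u = 𝕃`). (1) If the numbers `ν_i / N_i` of the
components `E_i` which occur in a `J` with `χ J ≠ 0` come from divisors as in `IsDivisor`
(`FromDivisor` with `H = 1`), and `b(s) f ^ s = P(s) f ^ (s + 1)` with `P(s)` in the Weyl algebra (in
particular if `b` is the Bernstein-Sato polynomial `b_f`), then `Z` lies in the ring generated over
`S` by `T` and the `1 / (1 - u ^ q₁ T ^ q₂)`, `q₁ < 0 < q₂`, with `b(q₁ / q₂) = 0` (`RootPairs b`); so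
every pole of `Z` is a root of `b`. (2) If these numbers come from such divisors at points at which
`H` does not vanish, for every `H` with `H(0) ≠ 0` (general points of `G_i` will do if `E_i` meets the
fibre over the origin), the same holds for every `b` with `b(s) f ^ s = P(s) f ^ (s + 1)`, `P(s)` a
differential operator with formal (in particular convergent) power series at the origin as
coefficients, in particular for the local Bernstein-Sato polynomial `b_{f,0}`. -/
theorem result {σ R T I : Type} [Fintype σ] [DecidableEq σ] [Fintype R] [DecidableEq R]
    [Fintype T] [DecidableEq T] [Fintype I] {κ : R → Type} [∀ r, Fintype (κ r)]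
    [∀ r, DecidableEq (κ r)] (f : (r : R) → κ r → MvPolynomial σ ℂ)
    (hf : ∀ r, ∃ j, f r j ≠ 0) (e : T → R → ℕ) (he : ∀ r, ∃ t, e t r ≠ 0) (a : T → ℕ)
    (ha : ∀ t, 0 < a t) (k : I → ℕ) (m : I → T → ℕ) (S : Type) [CommRing S] (u : Sˣ)
    (χ : Finset {x // 0 < mulR a m x} → S) (b : Polynomial ℂ)
    (h : (IsBFunction (powProd a fun t => powFam f (e t)) b ∧
        ∀ i, (∃ J, χ J ≠ 0 ∧ ∃ x ∈ J, x.1 = Sum.inl i) →
          FromDivisor f e a 1 (k i + 1) (∑ t, a t * m i t)) ∨
      (IsLocalBFunction (powProd a fun t => powFam f (e t)) b ∧
        ∀ i, (∃ J, χ J ≠ 0 ∧ ∃ x ∈ J, x.1 = Sum.inl i) →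
          ∀ H : MvPolynomial σ ℂ, MvPolynomial.constantCoeff H ≠ 0 →
            FromDivisor f e a H (k i + 1) (∑ t, a t * m i t))) :
    dlZ u (nuR k T) (mulR a m) χ ∈ ratU u (RootPairs b) ∧
      ∀ s₀ : ℚ, IsPoleU u (dlZ u (nuR k T) (mulR a m) χ) s₀ → b.eval (s₀ : ℂ) = 0 :=
  lead_mot f hf e he a ha k m S u χ b h

end Pool.Agent.Results.MP_b07157_ag.SmoothCentres
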